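import Pool.Agent.Y990.OA.Stm

set_option autoImplicit false

open MeasureTheory Set

/-! OA-CV of project OA (helper990): the number of places with two clusters is bounded by the
influence. -/

namespace Pool.Agent.Y454.OA

open Pool.Agent.W783.PC (pm DepOn Inc)
open Pool.Agent.W424.PC (cfgOf)
open Pool.Agent.Y990.PL (Expl)
open Pool.Agent.Y990.CB
open Pool.Agent.Y990.OA
open Pool.Agent.Y290.CB (Tq Pq mem_Tq Pq_card near Tq_count merge_reach sum_ite_const)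
open Pool.Agent.Y689.CB (Nf_anti cfg_mono cfg_true)
open Pool.Agent.Y333.CB (mem_Ff)
open H974 (Ex Ok ind Pr)

noncomputable section

variable {d : ℕ}

/-- The trace of a cluster on the frame. -/
def Ct (M : Mod d) (L : ℕ) (u : Z d) (A : Finset M.ι) : Set (Z d) :=
  cl M (cfgOf A) (Bo 0 L) u ∩ Fr 0 L

lemma Fn_eq (M : Mod d) (L : ℕ) (A : Finset M.ι) : Fn M L A = Nf 1 (Ff (0 : Z d) L) (Ct M L) A :=
  rfl

lemma coe_Ff (L : ℕ) : ((Ff (0 : Z d) L : Finset (Z d)) : Set (Z d)) = Fr 0 L := by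
  ext x
  rw [Finset.mem_coe, mem_Ff]

lemma Ct_sub (M : Mod d) (L : ℕ) : ∀ u ∈ Ff (0 : Z d) L, ∀ A, Ct M L u A ⊆ Ff (0 : Z d) L := by
  intro u _ A
  rw [coe_Ff]
  exact inter_subset_right

lemma Ct_self (M : Mod d) (L : ℕ) : ∀ u ∈ Ff (0 : Z d) L, ∀ A, u ∈ Ct M L u A := fun u hu _ =>
  ⟨SimpleGraph.Reachable.refl u, mem_Ff.1 hu⟩

lemma Ct_eq (M : Mod d) (L : ℕ) : ∀ u ∈ Ff (0 : Z d) L, ∀ A, ∀ w ∈ Ct M L u A,
    Ct M L w A = Ct M L u A := by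
  intro u _ A w hw
  unfold Ct
  rw [cl_eq hw.1]

lemma Ct_mono (M : Mod d) (L : ℕ) : ∀ u ∈ Ff (0 : Z d) L, ∀ A A', A ⊆ A' →
    Ct M L u A ⊆ Ct M L u A' := fun u _ _ _ h =>
  inter_subset_inter_left _ (cl_mono (cfg_mono h) (Subset.refl _) u)

lemma Fn_anti (M : Mod d) (L : ℕ) {A A' : Finset M.ι} (h : A ⊆ A') : Fn M L A' ≤ Fn M L A :=
  Nf_anti le_rfl (Ct_sub M L) (Ct_mono M L) h

/-- The event of a quadruple. -/
def Eq5 (M : Mod d) (L : ℕ) (x y a a' : Z d) : Set (M.ι → Bool) :=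
  {ω | ω ∈ Ea M L x y ∧ a ∈ cl M ω (Bo 0 L) y ∧ a' ∈ cl M ω (Bo 0 L) x}

lemma Eq5_dep (M : Mod d) (L : ℕ) (x y a a' : Z d) :
    DepOn (Eq5 M L x y a a') (In M (Bo 0 L)) := by
  intro ω ω' h
  unfold Eq5 Ea Am cl
  simp only [mem_ofPred_eq]
  rw [graph_congr h]

open scoped Classical in
/-- The increment of `Fn` at a quadruple. -/
def dr (M : Mod d) (p : unitInterval) (L : ℕ) (q : (Z d × Z d) × (Z d × Z d)) : ℝ :=
  Ex (fun _ : M.ι => (p : ℝ)) (Tf M L) (fun A => Fn M L A - Fn M L (A ∪ Pq M q))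

lemma dr_nonneg (M : Mod d) (p : unitInterval) (L : ℕ) (q : (Z d × Z d) × (Z d × Z d)) :
    0 ≤ dr M p L q := by
  classical
  have hok : Ok (fun _ : M.ι => (p : ℝ)) := fun _ => ⟨p.2.1, p.2.2⟩
  refine H974.Ex_nonneg hok fun A _ => ?_
  have := Fn_anti M L (A := A) (A' := A ∪ Pq M q) Finset.subset_union_left
  linarith

open scoped Classical in
theorem Eq5_le (M : Mod d) (p : unitInterval) (L : ℕ) (x y : Z d)
    (q : (Z d × Z d) × (Z d × Z d)) (hq : q ∈ Tq M L) :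
    (mu M p).real (Eq5 M L x y q.1.1 q.2.1) ≤ dr M p L q := by
  have hok : Ok (fun _ : M.ι => (p : ℝ)) := fun _ => ⟨p.2.1, p.2.2⟩
  have hdep : DepOn (Eq5 M L x y q.1.1 q.2.1) (Tf M L : Set M.ι) := by
    rw [coe_Tf]; exact Eq5_dep M L x y _ _
  unfold mu dr
  rw [Pool.Agent.Y288.PL.pm_eq_Pr (fun _ => p) hdep]
  refine H974.Ex_mono hok fun A hA => ?_
  by_cases hD : cfgOf A ∈ Eq5 M L x y q.1.1 q.2.1
  · rw [H974.ind_of hD]
    obtain ⟨⟨⟨x', hx', hxx⟩, ⟨y', hy', hyy⟩, hxy⟩, hD4, hD5⟩ := hD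
    obtain ⟨⟨⟨b1, b2⟩, b3, b4⟩, n1, n2, c, c1, c2⟩ := mem_Tq.1 hq
    have hcard : ∀ u ∈ Ff (0 : Z d) L, 1 ≤ (Ct M L u A).ncard := by
      intro u hu
      have hf : (Ct M L u A).Finite :=
        (Finset.finite_toSet (Ff (0 : Z d) L)).subset (Ct_sub M L u hu A)
      exact (Set.ncard_pos hf).2 ⟨u, Ct_self M L u hu A⟩
    have hx2 : x' ∈ Ff (0 : Z d) L := mem_Ff.2 hx'
    have hy2 : y' ∈ Ff (0 : Z d) L := mem_Ff.2 hy'
    have hsub : A ⊆ A ∪ Pq M q := Finset.subset_union_left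
    have hmono : ∀ {u v : Z d}, (G M (cfgOf A) (Bo 0 L)).Reachable u v →
        (G M (cfgOf (A ∪ Pq M q)) (Bo 0 L)).Reachable u v := fun {u v} h =>
      SimpleGraph.Reachable.mono (G_mono M (cfg_mono hsub) (Subset.refl _)) h
    refine Pool.Agent.Y960.CB.merge M.ι (Z d) (Ff (0 : Z d) L) (Ct M L) 1 le_rfl (Ct_sub M L)
      (Ct_self M L) (Ct_eq M L) (Ct_mono M L) A (A ∪ Pq M q) hsub x' hx2 y' hy2 (hcard x' hx2)
      (hcard y' hy2) ?_ ?_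
    · rintro ⟨h1, -⟩
      exact hxy ((hxx.trans h1).trans hyy.symm)
    · refine ⟨?_, hy'⟩
      have hm : y ∈ cl M (cfgOf (A ∪ Pq M q)) (Bo 0 L) x := by
        refine merge_reach b1 b2 b3 b4 n1 n2 c1 c2 ?_ ?_ (hmono hD4) (hmono hD5)
        · intro c hc
          refine cfg_true (Finset.mem_union_right _ ?_)
          exact Finset.mem_union_left _ hc
        · intro c hc
          refine cfg_true (Finset.mem_union_right _ ?_)
          exact Finset.mem_union_right _ hc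
      exact ((hmono hxx).symm.trans hm).trans (hmono hyy)
  · rw [H974.ind_not_of hD]
    have := Fn_anti M L (A := A) (A' := A ∪ Pq M q) Finset.subset_union_left
    linarith

lemma Tf_mono (M : Mod d) {m L : ℕ} (h : m ≤ L) : Tf M m ⊆ Tf M L := by
  rw [← Finset.coe_subset, coe_Tf, coe_Tf]
  exact In_mono M (Bo_mono 0 h)

open scoped Classical in
/-- The sum of the increments over all quadruples. -/
theorem dr_sum (M : Mod d) (p : unitInterval) (L m : ℕ) (hm : m ≤ L) :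
    (p : ℝ) ^ 5 * ∑ q ∈ Tq M m, dr M p L q ≤ (7 : ℝ) ^ (4 * d) * Xi M p L m := by
  have hp0 : (0 : ℝ) ≤ p := p.2.1
  have hp1 : (p : ℝ) ≤ 1 := p.2.2
  have hok : Ok (fun _ : M.ι => (p : ℝ)) := fun _ => ⟨hp0, hp1⟩
  set w : M.ι → ℝ := fun c => (p : ℝ) * (1 - p) *
    Ex (fun _ : M.ι => (p : ℝ)) (Tf M L) (fun A => Fn M L (A.erase c) - Fn M L (insert c A)) with hw
  have hXi : Xi M p L m = ∑ c ∈ Tf M m, w c := rfl
  have hw0 : ∀ c, 0 ≤ w c := by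
    intro c
    refine mul_nonneg (mul_nonneg hp0 (by linarith)) (H974.Ex_nonneg hok fun A _ => ?_)
    have := Fn_anti M L (A := A.erase c) (A' := insert c A)
      ((Finset.erase_subset c A).trans (Finset.subset_insert c A))
    linarith
  have hPm : ∀ q ∈ Tq M m, Pq M q ⊆ Tf M m := by
    intro q hq c hc
    obtain ⟨⟨⟨b1, b2⟩, b3, b4⟩, n1, n2, -⟩ := mem_Tq.1 hq
    have : c ∈ (Tf M m : Set M.ι) := by
      rw [coe_Tf]
      unfold Pq at hc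
      rcases Finset.mem_union.1 hc with h | h
      · exact ⟨_, b1, _, b2, n1, h⟩
      · exact ⟨_, b3, _, b4, n2, h⟩
    exact this
  have hq1 : ∀ q ∈ Tq M m, (p : ℝ) ^ 5 * dr M p L q ≤ ∑ c ∈ Pq M q, w c := by
    intro q hq
    have hT := Pool.Agent.Y960.CB.tel M.ι (Tf M L) (Pq M q) (fun _ => (p : ℝ)) p (Fn M L) hok
      ((hPm q hq).trans (Tf_mono M hm)) hp0 hp1 (fun _ _ => le_rfl) (fun A A' h _ => Fn_anti M L h)
    refine le_trans ?_ hT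
    refine mul_le_mul_of_nonneg_right ?_ (dr_nonneg M p L q)
    exact pow_le_pow_of_le_one hp0 hp1 (by have := Pq_card M q; omega)
  have hsum : ∑ q ∈ Tq M m, ∑ c ∈ Pq M q, w c ≤ (7 : ℝ) ^ (4 * d) * ∑ c ∈ Tf M m, w c := by
    have e : ∀ q ∈ Tq M m, ∑ c ∈ Pq M q, w c = ∑ c ∈ Tf M m, if c ∈ Pq M q then w c else 0 := by
      intro q hq
      rw [← Finset.sum_filter]
      refine Finset.sum_congr ?_ fun _ _ => rfl
      ext c
      rw [Finset.mem_filter]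
      exact ⟨fun h => ⟨hPm q hq h, h⟩, fun h => h.2⟩
    rw [Finset.sum_congr rfl e, Finset.sum_comm, Finset.mul_sum]
    refine Finset.sum_le_sum fun c _ => ?_
    rw [← Finset.sum_filter, Finset.sum_const, nsmul_eq_mul]
    refine mul_le_mul_of_nonneg_right ?_ (hw0 c)
    have := Tq_count M m c
    exact_mod_cast this
  rw [hXi, Finset.mul_sum]
  exact (Finset.sum_le_sum hq1).trans hsum

open scoped Classical in
/-- One pair of vertices. -/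
theorem one_pair2 (hctc : S_ctc2) (M : Mod d) (p : unitInterval) (hM : Nd M) (hQ : Qm M)
    (L m k : ℕ) (hmL : m ≤ L) (D : Set (Z d)) (z : Z d) (hz : D = Bo z k)
    (hD : Bo z (k + 1) ⊆ Bo 0 m) (x y : Z d)
    (hx : x ∈ D) (hy : y ∈ D) (hxF : x ∉ Fr (0 : Z d) L) (τ : ℝ)
    (h : τ ≤ (mu M p).real (Cn M D x y)) :
    τ * (mu M p).real (Ea M L x y) ≤
      ∑ q ∈ Tq M m, if q.1.1 ∈ D then dr M p L q else 0 := by
  have hDm : D ⊆ Bo 0 m := by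
    rw [hz]
    exact (Bo_mono z (Nat.le_succ k)).trans hD
  have hDL : D ⊆ Bo 0 L := hDm.trans (Bo_mono 0 hmL)
  have h1 := hctc d M p L D x y hM hQ hDL hx hy hxF
  have h2 : τ * (mu M p).real (Ea M L x y) ≤
      (mu M p).real (Ea M L x y) * (mu M p).real (Cn M D x y) := by
    rw [mul_comm]
    exact mul_le_mul_of_nonneg_left h measureReal_nonneg
  refine (h2.trans h1).trans ?_
  rw [← Finset.sum_filter]
  have hTm : ∀ q, q ∈ Tq M m → q ∈ Tq M L := by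
    intro q hq
    obtain ⟨⟨⟨b1, b2⟩, b3, b4⟩, h'⟩ := mem_Tq.1 hq
    exact mem_Tq.2 ⟨⟨⟨Bo_mono 0 hmL b1, Bo_mono 0 hmL b2⟩, Bo_mono 0 hmL b3, Bo_mono 0 hmL b4⟩, h'⟩
  have hsub : Ea M L x y ∩ Kt M L D x y ⊆
      ⋃ q ∈ (Tq M m).filter (fun q => q.1.1 ∈ D), Eq5 M L x y q.1.1 q.2.1 := by
    rintro ω ⟨h3, a, ha, b, hb, a', ha', b', hb', n1, n2, ⟨c, c1, c2⟩, h4, h5⟩
    simp only [mem_iUnion]
    refine ⟨((a, b), (a', b')), ?_, h3, h4, h5⟩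
    rw [Finset.mem_filter, mem_Tq]
    have hn := near (hz ▸ ha) (hz ▸ hb) n2 c1 c2
    exact ⟨⟨⟨⟨hDm ha, hDm hb⟩, hD hn.1, hD hn.2⟩, n1, n2, c, c1, c2⟩, ha⟩
  refine (measureReal_mono hsub (measure_ne_top _ _)).trans ?_
  refine (measureReal_biUnion_finset_le _ _).trans ?_
  refine Finset.sum_le_sum fun q hq => ?_
  rw [Finset.mem_filter] at hq
  exact Eq5_le M p L x y q (hTm q hq.1)

lemma Kv_sub (M : Mod d) (L : ℕ) (z : Z d) (k : ℕ) :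
    Kv M L z k ⊆ ⋃ x ∈ Bf z k, ⋃ y ∈ Bf z k, Ea M L x y := by
  rintro ω ⟨x, hx, y, hy, hAx, hAy, hxy⟩
  simp only [mem_iUnion]
  exact ⟨x, mem_Bf.2 hx, y, mem_Bf.2 hy, hAx, hAy, hxy⟩

theorem cv (h : S_ctc2) : S_cv := by
  classical
  intro d M hd hM hQ
  obtain ⟨hp, c, hc, hlow⟩ := s_tau d M hd hM
  set p := pc M with hpdef
  have hp0 : (0 : ℝ) < p := by exact_mod_cast hp
  have hp1 : (p : ℝ) ≤ 1 := p.2.2
  set K : ℝ := 32 ^ d * (((p : ℝ) ^ 5)⁻¹ * (7 : ℝ) ^ (4 * d)) / c with hK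
  have hK0 : 0 ≤ K := by positivity
  refine ⟨K + 1, by linarith, ?_⟩
  intro k L r m hk hrm hmL
  set δ : (Z d × Z d) × (Z d × Z d) → ℝ := dr M p L with hδ
  have hd0 : ∀ q, 0 ≤ δ q := fun q => dr_nonneg M p L q
  have hs := dr_sum M p L m hmL.le
  have hk0 : (0 : ℝ) < k := by exact_mod_cast hk
  set τ : ℝ := c / (k : ℝ) ^ (2 * d ^ 2) with hτdef
  have hτ : 0 < τ := by positivity
  have h1 : ∀ z ∈ Bf (0 : Z d) r, ∀ x ∈ Bf z k, ∀ y ∈ Bf z k,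
      τ * (mu M p).real (Ea M L x y) ≤
        ∑ q ∈ Tq M m, if q.1.1 ∈ Bo z (4 * k) then δ q else 0 := by
    intro z hz x hx y hy
    have hD : Bo z (4 * k + 1) ⊆ Bo (0 : Z d) m := Bo_sub (mem_Bf.1 hz) (by omega)
    have hxr : x ∈ Bo (0 : Z d) (k + r) := Bo_sub (mem_Bf.1 hz) le_rfl (mem_Bf.1 hx)
    have hxF : x ∉ Fr (0 : Z d) L := by
      rintro ⟨-, i, hi⟩
      have := hxr i
      rw [hi] at this
      have h' : L ≤ k + r := by exact_mod_cast this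
      omega
    exact one_pair2 h M p hM hQ L m (4 * k) hmL.le (Bo z (4 * k)) z rfl hD x y
      (Bo_mono z (by omega) (mem_Bf.1 hx)) (Bo_mono z (by omega) (mem_Bf.1 hy)) hxF τ
      (hlow k z x y hk (mem_Bf.1 hx) (mem_Bf.1 hy))
  have h2 : τ * ∑ u ∈ Bf (0 : Z d) r, ∑ x ∈ Bf u k, ∑ y ∈ Bf u k,
      (mu M p).real (Ea M L x y) ≤
      ∑ u ∈ Bf (0 : Z d) r, ∑ x ∈ Bf u k, ∑ y ∈ Bf u k,
        ∑ q ∈ Tq M m, if q.1.1 ∈ Bo u (4 * k) then δ q else 0 := by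
    rw [Finset.mul_sum]
    refine Finset.sum_le_sum fun u hu => ?_
    rw [Finset.mul_sum]
    refine Finset.sum_le_sum fun x hx => ?_
    rw [Finset.mul_sum]
    exact Finset.sum_le_sum fun y hy => h1 u hu x hx y hy
  have h3 : ∑ u ∈ Bf (0 : Z d) r, ∑ x ∈ Bf u k, ∑ y ∈ Bf u k,
        ∑ q ∈ Tq M m, (if q.1.1 ∈ Bo u (4 * k) then δ q else 0) ≤
      (2 * (4 * k) + 1 : ℕ) ^ d * ((2 * k + 1 : ℕ) ^ d * (2 * k + 1 : ℕ) ^ d) *
        ∑ q ∈ Tq M m, δ q := by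
    have e1 : ∀ u ∈ Bf (0 : Z d) r, ∑ x ∈ Bf u k, ∑ y ∈ Bf u k,
        ∑ q ∈ Tq M m, (if q.1.1 ∈ Bo u (4 * k) then δ q else 0) =
        ((2 * k + 1 : ℕ) ^ d * (2 * k + 1 : ℕ) ^ d : ℝ) *
          ∑ q ∈ Tq M m, (if q.1.1 ∈ Bo u (4 * k) then δ q else 0) := by
      intro u _
      rw [Finset.sum_const, Finset.sum_const, card_Bf, nsmul_eq_mul, nsmul_eq_mul]
      push_cast
      ring
    rw [Finset.sum_congr rfl e1, ← Finset.mul_sum, Finset.sum_comm]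
    have e2 : ∑ q ∈ Tq M m, ∑ u ∈ Bf (0 : Z d) r, (if q.1.1 ∈ Bo u (4 * k) then δ q else 0) ≤
        ∑ q ∈ Tq M m, ((2 * (4 * k) + 1 : ℕ) : ℝ) ^ d * δ q := by
      refine Finset.sum_le_sum fun q _ => ?_
      rw [sum_ite_const]
      refine mul_le_mul_of_nonneg_right ?_ (hd0 q)
      have hsub : (Bf (0 : Z d) r).filter (fun u => q.1.1 ∈ Bo u (4 * k)) ⊆
          Bf q.1.1 (4 * k) := by
        intro u hu
        rw [Finset.mem_filter] at hu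
        exact mem_Bf.2 (mem_Bo_comm.1 hu.2)
      have := Finset.card_le_card hsub
      rw [card_Bf] at this
      exact_mod_cast this
    rw [← Finset.mul_sum] at e2
    calc _ ≤ ((2 * k + 1 : ℕ) ^ d * (2 * k + 1 : ℕ) ^ d : ℝ) *
          (((2 * (4 * k) + 1 : ℕ) : ℝ) ^ d * ∑ q ∈ Tq M m, δ q) :=
          mul_le_mul_of_nonneg_left e2 (by positivity)
      _ = _ := by push_cast; ring
  have hδ0 : 0 ≤ ∑ q ∈ Tq M m, δ q := Finset.sum_nonneg fun q _ => hd0 q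
  have h4 : ∑ q ∈ Tq M m, δ q ≤ ((p : ℝ) ^ 5)⁻¹ * ((7 : ℝ) ^ (4 * d) * Xi M p L m) := by
    rw [← div_eq_inv_mul, le_div_iff₀ (by positivity), mul_comm]
    exact hs
  have hXi0 : 0 ≤ Xi M p L m := by
    have h5 : 0 ≤ ((p : ℝ) ^ 5)⁻¹ * ((7 : ℝ) ^ (4 * d) * Xi M p L m) := hδ0.trans h4
    have h6 : 0 < ((p : ℝ) ^ 5)⁻¹ * (7 : ℝ) ^ (4 * d) := by positivity
    rw [← mul_assoc] at h5
    exact nonneg_of_mul_nonneg_right h5 h6
  have h5 : (((2 * (4 * k) + 1 : ℕ) : ℝ) ^ d * (((2 * k + 1 : ℕ) : ℝ) ^ d *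
      ((2 * k + 1 : ℕ) : ℝ) ^ d)) ≤ 32 ^ d * ((k : ℝ) + 1) ^ (3 * d) := by
    have k1 : (((2 * (4 * k) + 1 : ℕ) : ℝ) * (((2 * k + 1 : ℕ) : ℝ) *
        ((2 * k + 1 : ℕ) : ℝ))) ≤ 32 * ((k : ℝ) + 1) ^ 3 := by
      push_cast
      nlinarith [mul_nonneg hk0.le hk0.le, mul_nonneg hk0.le (mul_nonneg hk0.le hk0.le)]
    calc _ = ((((2 * (4 * k) + 1 : ℕ) : ℝ) * (((2 * k + 1 : ℕ) : ℝ) *
        ((2 * k + 1 : ℕ) : ℝ)))) ^ d := by rw [mul_pow, mul_pow]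
      _ ≤ (32 * ((k : ℝ) + 1) ^ 3) ^ d := pow_le_pow_left₀ (by positivity) k1 d
      _ = _ := by rw [mul_pow, ← pow_mul]
  have h6 : τ * ∑ u ∈ Bf (0 : Z d) r, ∑ x ∈ Bf u k, ∑ y ∈ Bf u k,
      (mu M p).real (Ea M L x y) ≤ (32 ^ d * ((k : ℝ) + 1) ^ (3 * d)) *
        (((p : ℝ) ^ 5)⁻¹ * ((7 : ℝ) ^ (4 * d) * Xi M p L m)) :=
    (h2.trans h3).trans (mul_le_mul h5 h4 hδ0 (by positivity))
  have h7 : ∑ z ∈ Bf (0 : Z d) r, (mu M p).real (Kv M L z k) ≤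
      ∑ u ∈ Bf (0 : Z d) r, ∑ x ∈ Bf u k, ∑ y ∈ Bf u k, (mu M p).real (Ea M L x y) := by
    refine Finset.sum_le_sum fun z _ => ?_
    refine (measureReal_mono (Kv_sub M L z k) (measure_ne_top _ _)).trans ?_
    refine (measureReal_biUnion_finset_le _ _).trans (Finset.sum_le_sum fun a _ => ?_)
    exact measureReal_biUnion_finset_le _ _
  refine h7.trans ?_
  have h8 : ∑ u ∈ Bf (0 : Z d) r, ∑ x ∈ Bf u k, ∑ y ∈ Bf u k,
      (mu M p).real (Ea M L x y) ≤ (32 ^ d * ((k : ℝ) + 1) ^ (3 * d)) *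
        (((p : ℝ) ^ 5)⁻¹ * ((7 : ℝ) ^ (4 * d) * Xi M p L m)) / τ := by
    rw [le_div_iff₀ hτ, mul_comm]
    exact h6
  refine h8.trans ?_
  have h9 : (32 ^ d * ((k : ℝ) + 1) ^ (3 * d)) *
        (((p : ℝ) ^ 5)⁻¹ * ((7 : ℝ) ^ (4 * d) * Xi M p L m)) / τ =
      K * ((k : ℝ) ^ (2 * d ^ 2) * ((k : ℝ) + 1) ^ (3 * d)) * Xi M p L m := by
    rw [hK, hτdef]
    field_simp
  rw [h9]
  refine mul_le_mul_of_nonneg_right ?_ hXi0
  have h10 : (k : ℝ) ^ (2 * d ^ 2) ≤ ((k : ℝ) + 1) ^ (2 * d ^ 2) :=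
    pow_le_pow_left₀ hk0.le (by linarith) _
  rw [pow_add]
  have h11 : (0 : ℝ) ≤ ((k : ℝ) + 1) ^ (3 * d) := by positivity
  have h12 : (0 : ℝ) ≤ ((k : ℝ) + 1) ^ (2 * d ^ 2) := by positivity
  calc K * ((k : ℝ) ^ (2 * d ^ 2) * ((k : ℝ) + 1) ^ (3 * d))
      ≤ K * (((k : ℝ) + 1) ^ (2 * d ^ 2) * ((k : ℝ) + 1) ^ (3 * d)) :=
        mul_le_mul_of_nonneg_left (mul_le_mul_of_nonneg_right h10 h11) hK0
    _ ≤ _ := mul_le_mul_of_nonneg_right (by linarith) (mul_nonneg h12 h11)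

end

end Pool.Agent.Y454.OA
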